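import Pool.Agent.Lib.MP_a20daa_co.Girth

/-! Two families of connected graphs in which graphs of small bandwidth are hard to isolate. -/

set_option autoImplicit false

namespace Pool.Agent.Lib.MP_a20daa_co.Girth

open Finset

variable {W : Type} {H : SimpleGraph W} {k q : ℕ} {z : W → Fin k}

/-- No copy of `H` avoids the closed neighbourhood of `D`. -/
def Isol (H : SimpleGraph W) {Y : Type} (G : SimpleGraph Y) (D : Finset Y) : Prop :=
  ¬ ∃ f : H →g G, Function.Injective f ∧ ∀ x : W, f x ∉ D ∧ ∀ d ∈ D, ¬ G.Adj d (f x)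

lemma transfer {Y : Type} [Fintype Y] (G : SimpleGraph Y) (hG : G.Connected) {C : ℕ}
    (h : ∀ D : Finset Y, Isol H G D → 2 * Fintype.card Y ≤ C * D.card) :
    ∃ G' : SimpleGraph (Fin (Fintype.card Y)), G'.Connected ∧
      ∀ D, Isol H G' D → 2 * Fintype.card Y ≤ C * D.card := by
  let e := (Fintype.equivFin Y).symm
  refine ⟨G.comap e, (SimpleGraph.Iso.comap e G).connected_iff.2 hG, fun D hD => ?_⟩
  rw [← card_map e.toEmbedding]
  refine h _ fun ⟨f, h1, h2⟩ => hD ⟨⟨fun x => e.symm (f x), fun {x y} hxy => by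
    simpa using f.map_adj hxy⟩, e.symm.injective.comp h1, fun x => ⟨fun hx => (h2 x).1 ?_,
      fun d hd hx => (h2 x).2 (e d) (mem_map_of_mem _ hd) (by simpa using hx)⟩⟩
  simpa using hx

/-- Blow-ups of line graphs of cubic graphs of large girth. -/
theorem line_family (hq : 1 ≤ q) (hz : Function.Injective z)
    (hb : ∀ x y, H.Adj x y → (z x : ℕ) ≤ z y + q) (N : ℕ) :
    ∃ n : ℕ, N ≤ n ∧ ∃ G : SimpleGraph (Fin n), G.Connected ∧
      ∀ D, Isol H G D → 2 * n ≤ 18 * q * D.card := by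
  classical
  obtain ⟨V, _, v₀, s, hs, hw, hP⟩ := exists_sys (k + N + 1)
  have hne : ∀ i v, s i v ≠ v := fun i v => hw [i] (by simp) (by simp) (by simp) v
  let o : V → ℕ := fun v => Fintype.equivFin V v
  have ho : ∀ i v, ¬ o v < o (s i v) → o (s i v) < o (s i (s i v)) := fun i v h => by
    rw [hs]
    exact lt_of_le_of_ne (not_lt.1 h) fun h' =>
      hne i v ((Fintype.equivFin V).injective (Fin.ext h'))
  let E := {d : V × Fin 3 // o d.1 < o (s d.2 d.1)}
  have hE : 2 * Fintype.card E = 3 * Fintype.card V := by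
    have h1 : Fintype.card {d : V × Fin 3 // ¬ o d.1 < o (s d.2 d.1)} = Fintype.card E :=
      Fintype.card_congr ⟨fun d => ⟨(s d.1.2 d.1.1, d.1.2), ho _ _ d.2⟩,
        fun d => ⟨(s d.1.2 d.1.1, d.1.2), by simpa [hs] using d.2.le⟩,
        fun d => by simp [hs], fun d => by simp [hs]⟩
    have h2 := Fintype.card_subtype_compl fun d : V × Fin 3 => o d.1 < o (s d.2 d.1)
    have h3 := Fintype.card_subtype_le fun d : V × Fin 3 => o d.1 < o (s d.2 d.1)
    rw [h1] at h2
    simp only [Fintype.card_prod, Fintype.card_fin] at h2 h3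
    change Fintype.card E = _ - Fintype.card E at h2
    change Fintype.card E ≤ _ at h3
    omega
  let on : V → E × Fin q → Prop := fun u y => u = y.1.1.1 ∨ u = s y.1.1.2 y.1.1.1
  have hrep : ∀ v i, ∃ d : E, ∀ u j, on u (d, j) ↔ u = v ∨ u = s i v := fun v i => by
    by_cases h : o v < o (s i v)
    · exact ⟨⟨(v, i), h⟩, fun u j => Iff.rfl⟩
    · exact ⟨⟨(s i v, i), ho _ _ h⟩, fun u j => by simp [on, hs, or_comm]⟩
  choose rep hrep using hrep
  let G : SimpleGraph (E × Fin q) :=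
    { Adj := fun x y => x ≠ y ∧ ∃ u, on u x ∧ on u y
      symm := ⟨fun x y ⟨h, u, h1, h2⟩ => ⟨h.symm, u, h2, h1⟩⟩
      loopless := ⟨fun x h => h.1 rfl⟩ }
  have hreach : ∀ u x y, on u x → on u y → G.Reachable x y := fun u x y h1 h2 => by
    by_cases h : x = y
    · rw [h]
    · exact SimpleGraph.Adj.reachable ⟨h, u, h1, h2⟩
  have hG : G.Connected := by
    refine (SimpleGraph.connected_iff_exists_forall_reachable _).2
      ⟨(rep v₀ 0, ⟨0, hq⟩), fun y => ?_⟩
    refine hP (fun u => ∀ y, on u y → G.Reachable (rep v₀ 0, ⟨0, hq⟩) y)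
      (fun y hy => hreach v₀ _ _ ((hrep _ _ _ _).2 (Or.inl rfl)) hy) (fun i u ih y hy => ?_)
      y.1.1.1 y (Or.inl rfl)
    exact (ih (rep u i, ⟨0, hq⟩) ((hrep _ _ _ _).2 (Or.inl rfl))).trans
      (hreach _ _ _ ((hrep _ _ _ _).2 (Or.inr rfl)) hy)
  have hpath := exists_path (by omega) hs hw (fun y : E × Fin q => y.1.1)
  have hV : N ≤ Fintype.card V := by
    obtain ⟨v, c, -, h2, -⟩ := hpath ∅ (by simpa using Fintype.card_pos_iff.2 ⟨v₀⟩)
    simpa using Fintype.card_le_of_injective (fun t : Fin N => v t) fun a b h => by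
      by_contra hn
      rcases lt_or_gt_of_ne hn with h' | h'
      · exact h2 _ _ h' (by omega) h
      · exact h2 _ _ h' (by omega) h.symm
  have hc : Fintype.card (E × Fin q) = Fintype.card E * q := by simp
  refine ⟨_, by rw [hc]; nlinarith, transfer G hG fun D hD => ?_⟩
  suffices h : Fintype.card V ≤ 6 * D.card by rw [hc]; nlinarith
  by_contra hlt
  obtain ⟨v, c, h1, h2, h3⟩ := hpath D (not_le.1 hlt)
  let f : W → E × Fin q := fun x => (rep (v (z x / q)) (c (z x / q)), ⟨z x % q, Nat.mod_lt _ hq⟩)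
  have hon : ∀ u x, on u (f x) ↔ u = v (z x / q) ∨ u = v (z x / q + 1) := fun u x => by
    rw [h1]; exact hrep _ _ _ _
  have hlt : ∀ x y, f x = f y → ¬ (z x : ℕ) / q < z y / q := fun x y h hl => by
    have h4 := Nat.div_le_self (z y) q
    have h5 := (z y).2
    rcases (hon _ y).1 (h ▸ (hon _ x).2 (Or.inl rfl)) with h6 | h6
    · exact h2 _ _ hl (by omega) h6
    · exact h2 _ _ (by omega) (by omega) h6
  have hf : Function.Injective f := fun x y h => by
    have h4 := hlt x y h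
    have h5 := hlt y x h.symm
    have h6 : (z x : ℕ) % q = z y % q := congrArg (fun p => (p.2 : ℕ)) h
    refine hz (Fin.ext ?_)
    rw [← Nat.div_add_mod (z x) q, ← Nat.div_add_mod (z y) q, h6, show (z x : ℕ) / q = z y / q by omega]
  have hdiv : ∀ x y, H.Adj x y → (z x : ℕ) / q ≤ z y / q + 1 := fun x y h => by
    rw [← Nat.add_div_right _ hq]
    exact Nat.div_le_div_right (hb x y h)
  have hav : ∀ x, ∀ d ∈ D, ∀ u, on u d → ¬ on u (f x) := fun x d hd u h4 h5 => by
    rcases (hon u x).1 h5 with rfl | rfl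
    · exact h4.elim (h3 _ d hd).1 (h3 _ d hd).2
    · exact h4.elim (h3 _ d hd).1 (h3 _ d hd).2
  refine hD ⟨⟨f, fun {x y} h => ⟨hf.ne h.ne, ?_⟩⟩, hf, fun x =>
    ⟨fun h => hav x _ h _ (Or.inl rfl) (Or.inl rfl), fun d hd h =>
      h.2.elim fun u hu => hav x d hd u hu.1 hu.2⟩⟩
  have h4 := hdiv x y h
  have h5 := hdiv y x h.symm
  rcases lt_trichotomy ((z x : ℕ) / q) (z y / q) with h6 | h6 | h6
  · exact ⟨_, (hon _ x).2 (Or.inr rfl), (hon _ y).2 (Or.inl (by congr 1; omega))⟩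
  · exact ⟨_, (hon _ x).2 (Or.inl rfl), (hon _ y).2 (Or.inl (by rw [h6]))⟩
  · exact ⟨_, (hon _ x).2 (Or.inl rfl), (hon _ y).2 (Or.inr (by congr 1; omega))⟩

/-- Copies of the `q`-th power of a cycle on `b` vertices, each with a root; the roots form a
clique. -/
def units (t b q : ℕ) : SimpleGraph (Fin t × Option (Fin b)) where
  Adj x y := match x.2, y.2 with
    | none, none => x.1 ≠ y.1
    | none, some j => x.1 = y.1 ∧ (j : ℕ) = 0
    | some i, none => x.1 = y.1 ∧ (i : ℕ) = 0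
    | some i, some j => x.1 = y.1 ∧ (i : ℕ) ≠ j ∧
        (((i : ℕ) ≤ j + q ∧ (j : ℕ) ≤ i + q) ∨ (i : ℕ) + b ≤ j + q ∨ (j : ℕ) + b ≤ i + q)
  symm := ⟨by
    rintro ⟨a, _ | i⟩ ⟨a', _ | j⟩ h
    · exact Ne.symm h
    · exact ⟨h.1.symm, h.2⟩
    · exact ⟨h.1.symm, h.2⟩
    · exact ⟨h.1.symm, h.2.1.symm, by have := h.2.2; omega⟩⟩
  loopless := ⟨by
    rintro ⟨a, _ | i⟩ h
    · exact h rfl
    · exact h.2.1 rfl⟩

lemma units_connected (t b : ℕ) (hq : 1 ≤ q) : (units (t + 1) b q).Connected := by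
  have h1 : ∀ a, (units (t + 1) b q).Reachable (0, none) (a, none) := fun a => by
    by_cases h : 0 = a
    · rw [← h]
    · exact SimpleGraph.Adj.reachable h
  refine (SimpleGraph.connected_iff_exists_forall_reachable _).2 ⟨(0, none), ?_⟩
  rintro ⟨a, _ | ⟨i, hi⟩⟩
  · exact h1 a
  · induction i with
    | zero => exact (h1 a).trans (SimpleGraph.Adj.reachable ⟨rfl, rfl⟩)
    | succ i ih =>
      exact (ih (by omega)).trans (SimpleGraph.Adj.reachable ⟨rfl, by simp, by simp; omega⟩)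

theorem unit_family (hq : 1 ≤ q) (hz : Function.Injective z)
    (hb : ∀ x y, H.Adj x y → (z x : ℕ) ≤ z y + q) (N : ℕ) :
    ∃ n : ℕ, N ≤ n ∧ ∃ G : SimpleGraph (Fin n), G.Connected ∧
      ∀ D, Isol H G D → 2 * n ≤ (k + 2 * q + 2) * D.card := by
  classical
  have hc : Fintype.card (Fin (N + 1) × Option (Fin (k + 2 * q + 1))) =
      (N + 1) * (k + 2 * q + 2) := by simp
  refine ⟨_, by rw [hc]; nlinarith, transfer _ (units_connected N (k + 2 * q + 1) hq) fun D hD => ?_⟩
  suffices h : ∀ a, 2 ≤ (D.filter fun d => d.1 = a).card by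
    have h1 := card_eq_sum_card_fiberwise (s := D) (t := univ) (f := Prod.fst) fun _ _ => mem_univ _
    have h2 := card_nsmul_le_sum univ _ 2 fun a _ => h a
    rw [← h1] at h2
    simp only [card_univ, Fintype.card_fin, smul_eq_mul] at h2
    rw [hc]
    nlinarith
  intro a
  by_contra hlt
  obtain ⟨p, hp⟩ : ∃ p : Fin (k + 2 * q + 1), ∀ d ∈ D, d.1 = a →
      d.2 = some p ∨ (d.2 = none ∧ (p : ℕ) = 0) := by
    obtain ⟨⟨a', y⟩, h⟩ := card_le_one_iff_subset_singleton.1 (Nat.lt_succ_iff.1 (not_le.1 hlt))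
    refine ⟨y.getD 0, fun d hd hda => ?_⟩
    have := mem_singleton.1 (h (mem_filter.2 ⟨hd, hda⟩))
    cases y <;> simp [this]
  have hp' := p.2
  have hex : ∀ x, ∃ j : Fin (k + 2 * q + 1), (j : ℕ) = p + q + 1 + z x ∨
      (j : ℕ) + (k + 2 * q + 1) = p + q + 1 + z x := fun x => by
    have := (z x).2
    by_cases h : (p : ℕ) + q + 1 + z x < k + 2 * q + 1
    · exact ⟨⟨_, h⟩, Or.inl rfl⟩
    · exact ⟨⟨p + q + 1 + z x - (k + 2 * q + 1), by omega⟩, Or.inr (by simp only; omega)⟩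
  choose g hg using hex
  have hne : ∀ x y, x ≠ y → (g x : ℕ) ≠ g y := fun x y h h' => by
    have h1 : (z x : ℕ) ≠ z y := fun e => h (hz (Fin.ext e))
    have := hg x
    have := hg y
    have := (z x).2
    have := (z y).2
    omega
  refine hD ⟨⟨fun x => (a, some (g x)), fun {x y} h => ⟨rfl, hne _ _ h.ne, ?_⟩⟩, fun x y h => ?_,
    fun x => ⟨fun h => ?_, ?_⟩⟩
  · have := hg x
    have := hg y
    have := hb x y h
    have := hb y x h.symm
    omega
  · by_contra hn
    exact hne x y hn (congrArg Fin.val (Option.some.inj (Prod.mk.inj h).2))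
  · have h1 := hg x
    have h2 := (z x).2
    rcases hp _ h rfl with h3 | h3
    · have : (g x : ℕ) = p := congrArg Fin.val (Option.some.inj h3)
      omega
    · exact absurd h3.1 (Option.some_ne_none _)
  · have h1 := hg x
    have h2 := (z x).2
    have h3 := (g x).2
    rintro ⟨a', _ | i⟩ hd h
    · have h4 : (g x : ℕ) = 0 := h.2
      rcases hp _ hd h.1 with h5 | h5
      · exact absurd h5.symm (Option.some_ne_none _)
      · omega
    · rcases hp _ hd h.1 with h5 | h5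
      · have h6 : (i : ℕ) = p := congrArg Fin.val (Option.some.inj h5)
        have h7 : ((i : ℕ) ≤ g x + q ∧ (g x : ℕ) ≤ i + q) ∨ (i : ℕ) + (k + 2 * q + 1) ≤ g x + q ∨
          (g x : ℕ) + (k + 2 * q + 1) ≤ i + q := h.2.2
        omega
      · exact absurd h5.1 (Option.some_ne_none _)

end Pool.Agent.Lib.MP_a20daa_co.Girth
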