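import Pool.Agent.Lib.MP_a20daa_co.Band
import Pool.Agent.Lib.MP_c98209_co.Chordal

/-! Isolation of a connected graph in chordal graphs. -/

set_option autoImplicit false

namespace Pool.Agent.Lib.MP_a20daa_co.Chord

open Finset Pool.Agent.Lib.MP_c98209_co Pool.Agent.Lib.MP_a20daa_co.Girth

variable {V W : Type} {G : SimpleGraph V} {H : SimpleGraph W} {ρ : V → ℕ} {p : V → V}

/-- A perfect elimination ordering. -/
lemma exists_peo [DecidableEq V] (hc : Chordal G) (X : Finset V) : ∃ ρ : V → ℕ, Set.InjOn ρ X ∧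
    ∀ v ∈ X, ∀ a ∈ X, ∀ b ∈ X, G.Adj v a → G.Adj v b → ρ v < ρ a → ρ v < ρ b → a ≠ b →
      G.Adj a b := by
  induction X using Finset.strongInduction with
  | H X ih =>
    rcases X.eq_empty_or_nonempty with rfl | ⟨c, hc'⟩
    · exact ⟨fun _ => 0, by simp, by simp⟩
    obtain ⟨s, hs, -, h⟩ := simp_of_clique_boundary (hc.qp X) Set.univ ⟨c, hc', trivial⟩
      fun a _ b _ ha => absurd trivial ha
    obtain ⟨r, h1, h2⟩ := ih _ (erase_ssubset hs)
    refine ⟨fun v => if v = s then 0 else r v + 1, fun a ha b hb hab => ?_,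
      fun v hv a ha b hb h3 h4 h5 h6 h7 => ?_⟩
    · by_cases h3 : a = s <;> by_cases h4 : b = s <;> simp [h3, h4] at hab ⊢
      exact h1 (by simpa [h3] using ha) (by simpa [h4] using hb) hab
    · by_cases h8 : v = s
      · exact h a ha b hb (h8 ▸ h3) (h8 ▸ h4) h7
      · by_cases h9 : a = s
        · simp [h9] at h5
        by_cases h10 : b = s
        · simp [h10] at h6
        simp only [h8, h9, h10, if_false, Nat.add_lt_add_iff_right] at h5 h6
        exact h2 v (mem_erase.2 ⟨h8, hv⟩) a (mem_erase.2 ⟨h9, ha⟩) b (mem_erase.2 ⟨h10, hb⟩)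
          h3 h4 h5 h6 h7

/-- An elimination tree: `p v` is the first later neighbour of `v`. -/
structure Elim (G : SimpleGraph V) (ρ : V → ℕ) (p : V → V) : Prop where
  inj : Function.Injective ρ
  par : ∀ v, (p v = v ∧ ∀ y, G.Adj v y → ¬ ρ v < ρ y) ∨ (G.Adj v (p v) ∧ ρ v < ρ (p v))
  up : ∀ v y, G.Adj v y → ρ v < ρ y → y = p v ∨ (G.Adj (p v) y ∧ ρ (p v) < ρ y)

lemma exists_elim [Fintype V] (hc : Chordal G) : ∃ ρ p, Elim G ρ p := by
  classical
  obtain ⟨ρ, h1, h2⟩ := exists_peo hc univ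
  have h3 : Function.Injective ρ := fun a b h => h1 (by simp) (by simp) h
  have h : ∀ v, ∃ m, ((m = v ∧ ∀ y, G.Adj v y → ¬ ρ v < ρ y) ∨ (G.Adj v m ∧ ρ v < ρ m)) ∧
      ∀ y, G.Adj v y → ρ v < ρ y → y = m ∨ (G.Adj m y ∧ ρ m < ρ y) := by
    intro v
    rcases (univ.filter fun y => G.Adj v y ∧ ρ v < ρ y).eq_empty_or_nonempty with h | h
    · have h4 : ∀ y, G.Adj v y → ¬ ρ v < ρ y := by simpa [filter_eq_empty_iff] using h
      exact ⟨v, Or.inl ⟨rfl, h4⟩, fun y a b => absurd b (h4 y a)⟩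
    · obtain ⟨m, h4, h5⟩ := exists_min_image _ ρ h
      have h6 := (mem_filter.1 h4).2
      refine ⟨m, Or.inr h6, fun y a b => or_iff_not_imp_left.2 fun hn => ⟨h2 v (mem_univ _) m
        (mem_univ _) y (mem_univ _) h6.1 a h6.2 b (Ne.symm hn), ?_⟩⟩
      exact lt_of_le_of_ne (h5 y (mem_filter.2 ⟨mem_univ _, a, b⟩)) fun e => hn (h3 e).symm
  choose p h4 h5 using h
  exact ⟨ρ, p, h3, h4, h5⟩

/-- `x` lies in the subtree of `w`. -/
def Des (p : V → V) (x w : V) : Prop := ∃ i, p^[i] x = w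

lemma Des.refl (x : V) : Des p x x := ⟨0, rfl⟩

lemma Des.of_par {x w : V} (h : Des p (p x) w) : Des p x w :=
  h.elim fun i hi => ⟨i + 1, hi⟩

lemma Des.trans {x y w : V} (h : Des p x y) (h' : Des p y w) : Des p x w :=
  h.elim fun i hi => h'.elim fun j hj => ⟨j + i, by rw [Function.iterate_add_apply, hi, hj]⟩

lemma Des.cases {x w : V} (h : Des p x w) : x = w ∨ Des p (p x) w := by
  obtain ⟨_ | i, hi⟩ := h
  · exact Or.inl hi
  · exact Or.inr ⟨i, hi⟩

lemma Elim.le (e : Elim G ρ p) {x w : V} (h : Des p x w) : ρ x ≤ ρ w := by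
  obtain ⟨i, hi⟩ := h
  induction i generalizing x with
  | zero => exact (congrArg ρ hi).le
  | succ i ih =>
    refine le_trans ?_ (ih hi)
    rcases e.par x with h | h
    · rw [h.1]
    · exact h.2.le

lemma Elim.des (e : Elim G ρ p) {x y : V} (h : G.Adj x y) (h' : ρ x < ρ y) : Des p x y := by
  induction hn : ρ y - ρ x using Nat.strong_induction_on generalizing x with
  | _ n ih =>
    rcases e.up x y h h' with h1 | h1
    · exact ⟨1, h1.symm⟩
    · rcases e.par x with h2 | h2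
      · exact absurd h' (h2.2 y h)
      · exact (ih _ (by omega) h1.1 h1.2 rfl).of_par

lemma Elim.out (e : Elim G ρ p) {x y w : V} (h : Des p x w) (hxy : G.Adj x y) (hy : ¬ Des p y w) :
    G.Adj w y ∧ ρ w < ρ y := by
  obtain ⟨i, hi⟩ := h
  induction i generalizing x with
  | zero =>
    obtain rfl : x = w := hi
    exact ⟨hxy, lt_of_le_of_ne (not_lt.1 fun h => hy (e.des hxy.symm h)) (e.inj.ne hxy.ne)⟩
  | succ i ih =>
    have h1 : ρ x < ρ y := lt_of_le_of_ne
      (not_lt.1 fun h => hy ((e.des hxy.symm h).trans ⟨_, hi⟩)) (e.inj.ne hxy.ne)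
    rcases e.up x y hxy h1 with h2 | h2
    · exact absurd ⟨i, h2 ▸ hi⟩ hy
    · exact ih h2.1 hi

lemma spread (hH : H.Connected) {S : W → Prop} (h : ∀ a b, H.Adj a b → S a → S b) {a : W}
    (ha : S a) (b : W) : S b := by
  obtain ⟨w⟩ := hH a b
  induction w with
  | nil => exact ha
  | cons h1 _ ih => exact ih (h _ _ h1 ha)

lemma Elim.top [Fintype W] (e : Elim G ρ p) (hH : H.Connected) (f : H →g G) :
    ∃ t, ∀ a, Des p (f a) (f t) := by
  have := hH.nonempty
  obtain ⟨t, -, ht⟩ := exists_max_image univ (fun a => ρ (f a)) univ_nonempty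
  refine ⟨t, spread hH (fun a b hab h => by_contra fun hn => ?_) (Des.refl _)⟩
  exact absurd (e.out h (f.map_adj hab) hn).2 (not_lt.2 (ht b (mem_univ _)))

lemma Elim.root (e : Elim G ρ p) (hG : G.Connected) {w : V} (hw : p w = w) (x : V) :
    Des p x w := by
  refine spread hG (S := fun x => Des p x w) (fun a b hab h => by_contra fun hn => ?_)
    (Des.refl _) x
  have h1 := e.out h hab hn
  rcases e.par w with h2 | h2
  · exact h2.2 b h1.1 h1.2
  · exact h2.1.ne hw.symm

lemma Elim.upper [Fintype V] [Fintype W] (e : Elim G ρ p) (hH : H.Connected) (hG : G.Connected)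
    (X : Finset V) (hX : ∀ x ∈ X, p x ∈ X) : X.card = Fintype.card W ∨ ∃ D : Finset V,
      (Fintype.card W + 1) * D.card ≤ X.card ∧ ∀ f : H →g G, Function.Injective f →
        (∀ a, f a ∈ X) → ∃ a, f a ∈ D ∨ ∃ d ∈ D, G.Adj d (f a) := by
  classical
  induction X using Finset.strongInduction with
  | H X ih =>
    have hup : ∀ x ∈ X, ∀ w, Des p x w → w ∈ X := by
      rintro x hx w ⟨i, rfl⟩
      induction i with
      | zero => exact hx
      | succ i ih => rw [Function.iterate_succ_apply']; exact hX _ ih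
    have hcard : ∀ (f : H →g G) (Y : Finset V), Function.Injective f → (∀ a, f a ∈ Y) →
        Fintype.card W ≤ Y.card := fun f Y h1 h2 =>
      card_le_card_of_injOn f (fun a _ => h2 a) h1.injOn
    rcases (univ.filter fun w => ∃ u, p u = w ∧ u ≠ w ∧ ∃ f : H →g G, Function.Injective f ∧
        ∀ a, f a ∈ X ∧ Des p (f a) u).eq_empty_or_nonempty with hS | hS
    · have h1 : ∀ f : H →g G, Function.Injective f → (∀ a, f a ∈ X) → ∃ t, p (f t) = f t := by
        intro f h1 h2
        obtain ⟨t, ht⟩ := e.top hH f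
        exact ⟨t, by_contra fun hn => filter_eq_empty_iff.1 hS (mem_univ (p (f t)))
          ⟨_, rfl, Ne.symm hn, f, h1, fun a => ⟨h2 a, ht a⟩⟩⟩
      by_cases h2 : ∃ f : H →g G, Function.Injective f ∧ ∀ a, f a ∈ X
      · obtain ⟨f, h2, h3⟩ := h2
        obtain ⟨t, ht⟩ := h1 f h2 h3
        have h4 := hcard f X h2 h3
        refine or_iff_not_imp_left.2 fun hn => ⟨{f t}, by simp; omega, fun g h5 h6 => ?_⟩
        obtain ⟨s, hs⟩ := h1 g h5 h6
        exact ⟨s, Or.inl (mem_singleton.2 (e.inj (le_antisymm (e.le (e.root hG ht _))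
          (e.le (e.root hG hs _)))))⟩
      · exact Or.inr ⟨∅, by simp, fun g h3 h4 => absurd ⟨g, h3, h4⟩ h2⟩
    obtain ⟨w, h1, hmin⟩ := exists_min_image _ ρ hS
    obtain ⟨u, rfl, hu, f, hf, h2⟩ := (mem_filter.1 h1).2
    have hlt : ρ u < ρ (p u) := (e.par u).elim (fun h => absurd h.1.symm hu) fun h => h.2
    obtain ⟨a₀⟩ := hH.nonempty
    have hw : p u ∈ X := hX _ (hup _ (h2 a₀).1 _ (h2 a₀).2)
    have huw : Des p u (p u) := ⟨1, rfl⟩
    generalize p u = w at *
    have h3 : (X.filter fun x => ¬ Des p x w).card + (Fintype.card W + 1) ≤ X.card := by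
      have h3 := card_filter_add_card_filter_not (s := X) fun x => Des p x w
      have h4 := hcard f ((X.filter fun x => Des p x w).erase w) hf fun a => mem_erase.2
        ⟨fun h => absurd (h ▸ e.le (h2 a).2) (not_le.2 hlt),
          mem_filter.2 ⟨(h2 a).1, (h2 a).2.trans huw⟩⟩
      have h5 := card_erase_add_one (s := X.filter fun x => Des p x w)
        (mem_filter.2 ⟨hw, Des.refl w⟩)
      omega
    have key : ∀ g : H →g G, Function.Injective g → (∀ a, g a ∈ X) →
        (∀ a, g a ≠ w ∧ ¬ G.Adj w (g a)) → ∀ a, g a ∈ X.filter fun x => ¬ Des p x w := by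
      intro g h4 h5 h6 a
      refine mem_filter.2 ⟨h5 a, fun h7 => ?_⟩
      obtain ⟨t, ht⟩ := e.top hH g
      have h8 : Des p (g t) w := spread hH (S := fun a => Des p (g a) w)
        (fun a b hab h => by_contra fun hn => (h6 b).2 (e.out h (g.map_adj hab) hn).1) h7 t
      have h9 := h8.cases.resolve_left (h6 t).1
      rcases e.par (g t) with h10 | h10
      · exact (h6 t).1 (e.inj (le_antisymm (e.le h8) (e.le (e.root hG h10.1 _))))
      · have h11 := hmin (p (g t)) (mem_filter.2 ⟨mem_univ _, _, rfl, h10.1.ne, g, h4,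
          fun a => ⟨h5 a, ht a⟩⟩)
        exact (h6 t).2 (e.inj (le_antisymm (e.le h9) h11) ▸ h10.1.symm)
    refine Or.inr ?_
    rcases ih (X.filter fun x => ¬ Des p x w) (filter_ssubset.2 ⟨w, hw, by simp [Des.refl]⟩)
      (fun x hx => mem_filter.2 ⟨hX x (mem_filter.1 hx).1,
        fun h => (mem_filter.1 hx).2 h.of_par⟩) with h4 | ⟨D, h4, h5⟩
    · refine ⟨{w}, by simp; omega, fun g h5 h6 => by_contra fun hn => ?_⟩
      have h7 : ∀ a, g a ≠ w ∧ ¬ G.Adj w (g a) := by simpa [not_or] using hn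
      have h8 := key g h5 h6 h7
      rcases e.par w with h9 | h9
      · exact (mem_filter.1 (h8 a₀)).2 (e.root hG h9.1 _)
      · have h10 : univ.image g = X.filter fun x => ¬ Des p x w := eq_of_subset_of_card_le
          (fun x hx => by obtain ⟨a, -, rfl⟩ := mem_image.1 hx; exact h8 a)
          (by rw [card_image_of_injective _ h5, h4, card_univ])
        obtain ⟨a, -, ha⟩ := mem_image.1 (h10 ▸ mem_filter.2
          ⟨hX w hw, fun h => absurd (e.le h) (not_le.2 h9.2)⟩ : p w ∈ univ.image g)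
        exact (h7 a).2 (ha ▸ h9.1)
    · refine ⟨insert w D, ?_, fun g h6 h7 => by_contra fun hn => ?_⟩
      · have := Nat.mul_le_mul_left (Fintype.card W + 1) (card_insert_le w D)
        rw [mul_add] at this
        omega
      · push Not at hn
        obtain ⟨a, ha⟩ := h5 g h6 (key g h6 h7 fun a => ⟨fun h => (hn a).1 (h ▸ mem_insert_self _ _),
          (hn a).2 w (mem_insert_self _ _)⟩)
        rcases ha with ha | ⟨d, hd, ha⟩
        · exact (hn a).1 (mem_insert_of_mem ha)
        · exact (hn a).2 d (mem_insert_of_mem hd) ha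

theorem upper [Fintype V] [Fintype W] (hH : H.Connected) (hG : G.Connected) (hc : Chordal G)
    (hn : Fintype.card V ≠ Fintype.card W) :
    ∃ D : Finset V, (Fintype.card W + 1) * D.card ≤ Fintype.card V ∧ Isol H G D := by
  obtain ⟨ρ, p, e⟩ := exists_elim hc
  obtain ⟨D, h1, h2⟩ := (e.upper hH hG univ fun _ _ => mem_univ _).resolve_left hn
  refine ⟨D, h1, fun ⟨f, h3, h4⟩ => ?_⟩
  obtain ⟨a, ha | ⟨d, hd, ha⟩⟩ := h2 f h3 fun _ => mem_univ _
  · exact (h4 a).1 ha
  · exact (h4 a).2 d hd ha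

lemma chordal_of_rank (r : V → ℕ)
    (h : ∀ v a b, G.Adj v a → G.Adj v b → r v ≤ r a → r v ≤ r b → a ≠ b → G.Adj a b) :
    Chordal G := by
  intro k hk
  have key : ∀ u v : Fin k, (u - v).val = 1 ↔ (u : ℕ) = v + 1 ∨ (u : ℕ) + k = v + 1 := by
    intro u v
    have hu := u.2
    have hv := v.2
    rcases le_or_gt v u with h2 | h2
    · have h3 : (v : ℕ) ≤ u := h2
      rw [Fin.sub_val_of_le h2]
      omega
    · have h3 : (u : ℕ) < v := h2
      rw [Fin.sub_def]
      simp only
      rw [Nat.mod_eq_of_lt (by omega)]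
      omega
  refine ⟨fun f => ?_⟩
  obtain ⟨i, -, hi⟩ := exists_min_image univ (fun i => r (f i)) ⟨⟨0, by omega⟩, mem_univ _⟩
  have hi' := i.2
  obtain ⟨a, ha⟩ : ∃ a : Fin k, (a : ℕ) = i + 1 ∨ (a : ℕ) + k = i + 1 := by
    by_cases h : (i : ℕ) + 1 < k
    · exact ⟨⟨_, h⟩, Or.inl rfl⟩
    · exact ⟨⟨0, by omega⟩, Or.inr (by simp only; omega)⟩
  obtain ⟨b, hb⟩ : ∃ b : Fin k, (i : ℕ) = b + 1 ∨ (i : ℕ) + k = b + 1 := by
    by_cases h : (i : ℕ) = 0
    · exact ⟨⟨k - 1, by omega⟩, Or.inr (by simp only; omega)⟩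
    · exact ⟨⟨i - 1, by omega⟩, Or.inl (by simp only; omega)⟩
  have ha' := a.2
  have hb' := b.2
  have h1 := f.map_rel_iff.1 (h _ _ _
    (f.map_rel_iff.2 (SimpleGraph.cycleGraph_adj'.2 (Or.inr ((key _ _).2 ha))))
    (f.map_rel_iff.2 (SimpleGraph.cycleGraph_adj'.2 (Or.inl ((key _ _).2 hb))))
    (hi a (mem_univ _)) (hi b (mem_univ _))
    (f.injective.ne fun e => by have := congrArg Fin.val e; omega))
  rw [SimpleGraph.cycleGraph_adj', key, key] at h1
  omega

/-- Cliques with one root each. -/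
theorem tight [Fintype W] (H : SimpleGraph W) (N : ℕ) :
    ∃ n : ℕ, N ≤ n ∧ ∃ G : SimpleGraph (Fin n), G.Connected ∧ Chordal G ∧
      ∀ D, Isol H G D → n ≤ (Fintype.card W + 1) * D.card := by
  classical
  set k := Fintype.card W
  have hc : Fintype.card (Fin (N + 1) × Option (Fin k)) = (N + 1) * (k + 1) := by simp
  let e := (Fintype.equivFinOfCardEq hc).symm
  refine ⟨_, by nlinarith, (units (N + 1) k (k + 1)).comap e,
    (SimpleGraph.Iso.comap e _).connected_iff.2 (units_connected N k (by omega)),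
    chordal_of_rank (fun v => (e v).2.elim 2 fun i => if (i : ℕ) = 0 then 1 else 0)
      fun v a b h1 h2 h3 h4 h5 => ?_, fun D hD => ?_⟩
  · replace h5 := e.injective.ne h5
    simp only [SimpleGraph.comap_adj] at h1 h2 ⊢
    generalize e v = x, e a = y, e b = z at *
    obtain ⟨x, _ | i⟩ := x <;> obtain ⟨y, _ | j⟩ := y <;> obtain ⟨z, _ | l⟩ := z <;>
      simp only [units, Option.elim] at h1 h2 h3 h4 ⊢
    · simpa using h5
    · split_ifs at h4 <;> omega
    · split_ifs at h3 <;> omega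
    · split_ifs at h3 <;> omega
    · exact absurd (by rw [← h1.1, ← h2.1]) h5
    · exact absurd h4 (by rw [if_pos h1.2, if_neg (h1.2 ▸ h2.2.1).symm]; omega)
    · exact absurd h3 (by rw [if_pos h2.2, if_neg (h2.2 ▸ h1.2.1).symm]; omega)
    · have := j.2
      have := l.2
      exact ⟨h1.1.symm.trans h2.1, fun h => h5 (by rw [← h1.1, ← h2.1, Fin.ext h]), by omega⟩
  · suffices h : ∀ a, ∃ d ∈ D, (e d).1 = a by
      have := card_le_card_of_surjOn (s := D) (t := univ) (fun d => (e d).1) fun a _ => h a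
      simp only [card_univ, Fintype.card_fin] at this
      nlinarith
    intro a
    by_contra hn
    push Not at hn
    let g := Fintype.equivFin W
    refine hD ⟨⟨fun x => e.symm (a, some (g x)), fun {x y} h => ?_⟩, fun x y h => ?_,
      fun x => ⟨fun h => hn _ h (by simp), fun d hd h => ?_⟩⟩
    · have := (g x).2
      have := (g y).2
      simp only [SimpleGraph.comap_adj, Equiv.apply_symm_apply]
      exact ⟨rfl, fun e => h.ne (g.injective (Fin.ext e)), Or.inl ⟨by omega, by omega⟩⟩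
    · simpa using h
    · have h1 : (units (N + 1) k (k + 1)).Adj (e d) (a, some (g x)) := by simpa using h
      have h2 := hn d hd
      generalize e d = y at *
      obtain ⟨y, _ | j⟩ := y
      · exact h2 h1.1
      · exact h2 h1.1

end Pool.Agent.Lib.MP_a20daa_co.Chord
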