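import Mathlib

set_option autoImplicit false

namespace Pool.Agent.Lib.MP_a20daa_co

open Finset

theorem exists_fun (k s : ℕ) (hk : 1 ≤ k) (hs : k < 16 * s) :
    ∃ f : Fin k × Fin 352 → Fin k, ∀ A B : Finset (Fin k), s ≤ A.card → s ≤ B.card →
      ∃ v ∈ A, ∃ i, f (v, i) ∈ B := by
  classical
  let bad : Finset (Fin k) × Finset (Fin k) → Finset (Fin k × Fin 352 → Fin k) := fun P =>
    Fintype.piFinset fun p => if p.1 ∈ P.1 then P.2ᶜ else univ
  let S : Finset (Finset (Fin k) × Finset (Fin k)) :=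
    univ.filter fun P => s ≤ P.1.card ∧ s ≤ P.2.card
  have hk0 : (0 : ℝ) < k := by exact_mod_cast hk
  have h1 : ∀ P ∈ S, ((bad P).card : ℝ) ≤ (k : ℝ) ^ (k * 352) * (15 / 16) ^ (22 * k) := by
    intro P hP
    obtain ⟨hA, hB⟩ := (mem_filter.1 hP).2
    simp only [bad, Fintype.card_piFinset, Nat.cast_prod]
    calc ∏ p : Fin k × Fin 352, (((if p.1 ∈ P.1 then P.2ᶜ else univ).card : ℕ) : ℝ)
        ≤ ∏ p : Fin k × Fin 352, ((k : ℝ) * if p.1 ∈ P.1 then 15 / 16 else 1) := by
          refine prod_le_prod (fun _ _ => by positivity) fun p _ => ?_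
          split_ifs
          · rw [card_compl, Fintype.card_fin, Nat.cast_sub (by simpa using card_le_univ P.2)]
            have h2 : (k : ℝ) < 16 * s := by exact_mod_cast hs
            have h3 : (s : ℝ) ≤ P.2.card := by exact_mod_cast hB
            linarith
          · simp
      _ = (k : ℝ) ^ (k * 352) * (15 / 16) ^ (P.1.card * 352) := by
          rw [prod_mul_distrib, prod_const, card_univ, Fintype.card_prod, Fintype.card_fin,
            Fintype.card_fin, Fintype.prod_prod_type]
          congr 1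
          rw [prod_comm]
          simp only [prod_ite_mem, univ_inter, prod_const, card_univ, Fintype.card_fin]
          rw [← pow_mul]
      _ ≤ _ := by
          gcongr ?_ * ?_
          exact pow_le_pow_of_le_one (by norm_num) (by norm_num) (by omega)
  have h2 : (S.card : ℝ) ≤ 4 ^ k := by
    have h3 : S.card ≤ 2 ^ k * 2 ^ k := by
      simpa using card_le_univ S
    have h4 : ((2 ^ k * 2 ^ k : ℕ) : ℝ) = 4 ^ k := by
      push_cast
      rw [← mul_pow]
      norm_num
    rw [← h4]
    exact_mod_cast h3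
  have h3 : ((S.biUnion bad).card : ℝ) < (k : ℝ) ^ (k * 352) := by
    calc ((S.biUnion bad).card : ℝ) ≤ ∑ P ∈ S, ((bad P).card : ℝ) := by
          exact_mod_cast card_biUnion_le
      _ ≤ S.card • ((k : ℝ) ^ (k * 352) * (15 / 16) ^ (22 * k)) := sum_le_card_nsmul _ _ _ h1
      _ ≤ 4 ^ k * ((k : ℝ) ^ (k * 352) * (15 / 16) ^ (22 * k)) := by
          rw [nsmul_eq_mul]
          gcongr
      _ = (k : ℝ) ^ (k * 352) * (4 * (15 / 16) ^ 22) ^ k := by
          rw [mul_pow, ← pow_mul]
          ring
      _ < (k : ℝ) ^ (k * 352) * 1 := by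
          gcongr
          exact pow_lt_one₀ (by positivity) (by norm_num) (by omega)
      _ = _ := mul_one _
  have h4 : (S.biUnion bad).card < (univ : Finset (Fin k × Fin 352 → Fin k)).card := by
    have : ((univ : Finset (Fin k × Fin 352 → Fin k)).card : ℝ) = (k : ℝ) ^ (k * 352) := by simp
    exact_mod_cast h3.trans_eq this.symm
  obtain ⟨f, -, hf⟩ := exists_mem_notMem_of_card_lt_card h4
  refine ⟨f, fun A B hA hB => ?_⟩
  by_contra hn
  push Not at hn
  refine hf (mem_biUnion.2 ⟨(A, B), mem_filter.2 ⟨mem_univ _, hA, hB⟩, ?_⟩)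
  refine Fintype.mem_piFinset.2 fun p => ?_
  split_ifs with h
  · exact mem_compl.2 (hn p.1 h p.2)
  · exact mem_univ _

section dfs

variable {V : Type} [DecidableEq V] (H : SimpleGraph V)

theorem dfs_state (W : Finset V) (i : ℕ) (hi : i ≤ W.card) :
    ∃ (S T : Finset V) (U : List V), U.Nodup ∧ U.IsChain H.Adj ∧ (∀ x ∈ U, x ∈ W) ∧ S ⊆ W ∧
      T ⊆ W ∧ Disjoint S T ∧ (∀ x ∈ U, x ∉ S) ∧ (∀ x ∈ U, x ∉ T) ∧
      S.card + T.card + U.length = W.card ∧ (∀ a ∈ S, ∀ b ∈ T, ¬ H.Adj a b) ∧
      S.card + W.card = T.card + i := by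
  induction i with
  | zero => exact ⟨∅, W, [], by simp⟩
  | succ i ih =>
    obtain ⟨S, T, U, h1, h2, h3, h4, h5, h6, h7, h8, h9, h10, h11⟩ := ih (by omega)
    have push : ∀ t ∈ T, (∀ y ∈ U.head?, H.Adj t y) → ∃ (S T : Finset V) (U : List V), U.Nodup ∧
        U.IsChain H.Adj ∧ (∀ x ∈ U, x ∈ W) ∧ S ⊆ W ∧
        T ⊆ W ∧ Disjoint S T ∧ (∀ x ∈ U, x ∉ S) ∧ (∀ x ∈ U, x ∉ T) ∧
        S.card + T.card + U.length = W.card ∧ (∀ a ∈ S, ∀ b ∈ T, ¬ H.Adj a b) ∧
        S.card + W.card = T.card + (i + 1) := by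
      intro t ht hy
      have hc := card_erase_add_one ht
      refine ⟨S, T.erase t, t :: U, List.nodup_cons.2 ⟨fun h => h8 t h ht, h1⟩,
        List.isChain_cons.2 ⟨hy, h2⟩, ?_, h4, (erase_subset _ _).trans h5,
        h6.mono_right (erase_subset _ _), ?_, ?_, ?_,
        fun a ha b hb => h10 a ha b (mem_of_mem_erase hb), by omega⟩
      · intro x hx
        rcases List.mem_cons.1 hx with rfl | hx
        · exact h5 ht
        · exact h3 x hx
      · intro x hx
        rcases List.mem_cons.1 hx with rfl | hx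
        · exact fun h => disjoint_left.1 h6 h ht
        · exact h7 x hx
      · intro x hx
        rcases List.mem_cons.1 hx with rfl | hx
        · exact notMem_erase _ _
        · exact fun h => h8 x hx (mem_of_mem_erase h)
      · rw [List.length_cons]
        omega
    cases U with
    | nil =>
      have : T.Nonempty := by
        rw [← card_pos]
        simp at h9
        omega
      obtain ⟨t, ht⟩ := this
      exact push t ht (by simp)
    | cons u U =>
      by_cases h : ∃ t ∈ T, H.Adj u t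
      · obtain ⟨t, ht, hut⟩ := h
        exact push t ht (by simpa using hut.symm)
      · push Not at h
        have hu : u ∉ S := h7 u (by simp)
        have hc := card_insert_of_notMem hu
        refine ⟨insert u S, T, U, (List.nodup_cons.1 h1).2, h2.tail,
          fun x hx => h3 x (List.mem_cons_of_mem _ hx), insert_subset (h3 u (by simp)) h4, h5,
          disjoint_insert_left.2 ⟨h8 u (by simp), h6⟩, ?_,
          fun x hx => h8 x (List.mem_cons_of_mem _ hx), ?_, ?_, by omega⟩
        · intro x hx hx'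
          rcases mem_insert.1 hx' with rfl | hx'
          · exact (List.nodup_cons.1 h1).1 hx
          · exact h7 x (List.mem_cons_of_mem _ hx) hx'
        · rw [List.length_cons] at h9
          omega
        · intro a ha b hb
          rcases mem_insert.1 ha with rfl | ha
          · exact h b hb
          · exact h10 a ha b hb

/-- A long cycle in a set with the expansion property. -/
theorem exists_cycle (W : Finset V) (s : ℕ) (hs : 1 ≤ s) (hW : 4 * s ≤ W.card + 2)
    (h : ∀ A B : Finset V, A ⊆ W → B ⊆ W → Disjoint A B → s ≤ A.card → s ≤ B.card →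
      ∃ a ∈ A, ∃ b ∈ B, H.Adj a b) :
    ∃ (l : ℕ) (p : ℕ → V), W.card + 4 ≤ l + 4 * s ∧ l ≤ W.card ∧ (∀ t < l, p t ∈ W) ∧
      (∀ t < l, ∀ t' < l, p t = p t' → t = t') ∧ (∀ t, t + 1 < l → H.Adj (p t) (p (t + 1))) ∧
      H.Adj (p 0) (p (l - 1)) := by
  obtain ⟨S, T, U, h1, h2, h3, h4, h5, h6, -, -, h9, h10, h11⟩ := dfs_state H W W.card le_rfl
  have h12 : S.card < s := by
    by_contra h12
    obtain ⟨a, ha, b, hb, hab⟩ := h S T h4 h5 h6 (by omega) (by omega)
    exact h10 a ha b hb hab
  have hU : 2 * s ≤ U.length := by omega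
  have hne : U ≠ [] := by
    rintro rfl
    simp at hU
    omega
  let q : ℕ → V := fun t => U.getD t (U.head hne)
  have hq : ∀ t (ht : t < U.length), q t = U[t] := fun t ht => by simp [q, ht]
  have hqi : ∀ t < U.length, ∀ t' < U.length, q t = q t' → t = t' := fun t ht t' ht' h => by
    rw [hq t ht, hq t' ht'] at h
    exact (List.Nodup.getElem_inj_iff h1).1 h
  have hqW : ∀ t < U.length, q t ∈ W := fun t ht => by
    rw [hq t ht]
    exact h3 _ (List.getElem_mem ht)
  obtain ⟨a, ha, b, hb, hab⟩ := h ((range s).image q) ((Ico (U.length - s) U.length).image q)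
    (fun x hx => by
      obtain ⟨t, ht, rfl⟩ := mem_image.1 hx
      exact hqW t (by have := mem_range.1 ht; omega))
    (fun x hx => by
      obtain ⟨t, ht, rfl⟩ := mem_image.1 hx
      exact hqW t (mem_Ico.1 ht).2)
    (disjoint_left.2 fun x hx hx' => by
      obtain ⟨t, ht, rfl⟩ := mem_image.1 hx
      obtain ⟨t', ht', h⟩ := mem_image.1 hx'
      have h13 := mem_range.1 ht
      have h14 := mem_Ico.1 ht'
      have := hqi t' h14.2 t (by omega) h
      omega)
    (by
      rw [card_image_of_injOn fun t ht t' ht' h => hqi t (by have := mem_range.1 ht; omega) t'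
        (by have := mem_range.1 ht'; omega) h, card_range])
    (by
      rw [card_image_of_injOn fun t ht t' ht' h => hqi t (mem_Ico.1 ht).2 t' (mem_Ico.1 ht').2 h,
        Nat.card_Ico]
      omega)
  obtain ⟨i, hi, rfl⟩ := mem_image.1 ha
  obtain ⟨j, hj, rfl⟩ := mem_image.1 hb
  have hi' := mem_range.1 hi
  have hj' := mem_Ico.1 hj
  refine ⟨j - i + 1, fun t => q (i + t), by omega, by omega, fun t ht => hqW _ (by omega),
    fun t ht t' ht' h => by have := hqi _ (by omega) _ (by omega) h; omega, fun t ht => ?_, ?_⟩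
  · simp only
    rw [hq _ (by omega), hq _ (by omega)]
    exact h2.getElem (i + t) (by omega)
  · simpa [show i + (j - i) = j by omega] using hab

end dfs

/-- A bounded degree graph on `k` vertices keeping a cycle of length at least `k / 2` after the
removal of any `k / 16` vertices. -/
theorem exists_base (k : ℕ) (hk : 3 ≤ k) : ∃ (H : SimpleGraph (Fin k)) (nb : Fin k → Finset (Fin k)),
    (∀ v, (nb v).card ≤ 5985) ∧ (∀ v, v ∈ nb v) ∧ (∀ v w, H.Adj v w → w ∈ nb v) ∧
    ∀ R : Finset (Fin k), 16 * R.card ≤ k →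
      ∃ (l : ℕ) (p : ℕ → Fin k), k ≤ 2 * l ∧ l ≤ k ∧ (∀ t < l, p t ∉ R) ∧
      (∀ t < l, ∀ t' < l, p t = p t' → t = t') ∧ (∀ t, t + 1 < l → H.Adj (p t) (p (t + 1))) ∧
      H.Adj (p 0) (p (l - 1)) := by
  classical
  obtain ⟨f, hf⟩ := exists_fun k (k / 16 + 1) (by omega) (by omega)
  let fib : Fin k → Finset (Fin k × Fin 352) := fun w => univ.filter fun p => f p = w
  let bad : Finset (Fin k) := univ.filter fun w => 5632 < (fib w).card
  have hbad : 16 * bad.card ≤ k := by
    have h1 : ∑ w, (fib w).card = k * 352 := by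
      rw [← card_eq_sum_card_fiberwise (s := univ) (t := univ) (f := f) (by simp)]
      simp
    have h2 : bad.card • 5632 ≤ ∑ w ∈ bad, (fib w).card :=
      card_nsmul_le_sum _ _ _ fun w hw => (mem_filter.1 hw).2.le
    have h3 : ∑ w ∈ bad, (fib w).card ≤ ∑ w, (fib w).card :=
      sum_le_sum_of_subset (subset_univ _)
    rw [smul_eq_mul] at h2
    omega
  let H : SimpleGraph (Fin k) := SimpleGraph.fromRel fun v w => w ∉ bad ∧ ∃ i, f (v, i) = w
  refine ⟨H, fun v => insert v ((univ.image fun i => f (v, i)) ∪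
    if v ∈ bad then ∅ else (fib v).image Prod.fst), fun v => ?_, fun v => mem_insert_self _ _,
    fun v w h => ?_, fun R hR => ?_⟩
  · refine (card_insert_le _ _).trans ?_
    have h1 : (univ.image fun i => f (v, i)).card ≤ 352 := card_image_le.trans (by simp)
    have h2 : (if v ∈ bad then ∅ else (fib v).image Prod.fst).card ≤ 5632 := by
      split_ifs with h
      · simp
      · refine card_image_le.trans ?_
        simpa [bad] using h
    have h3 := card_union_le (univ.image fun i => f (v, i))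
      (if v ∈ bad then ∅ else (fib v).image Prod.fst)
    omega
  · obtain ⟨-, ⟨-, i, hi⟩ | ⟨h1, i, hi⟩⟩ := (SimpleGraph.fromRel_adj _ _ _).1 h
    · exact mem_insert_of_mem (mem_union_left _ (mem_image.2 ⟨i, mem_univ _, hi⟩))
    · refine mem_insert_of_mem (mem_union_right _ ?_)
      rw [if_neg h1]
      exact mem_image.2 ⟨(w, i), mem_filter.2 ⟨mem_univ _, hi⟩, rfl⟩
  · have h1 : (R ∪ bad)ᶜ.card + (R ∪ bad).card = k := by
      rw [card_compl_add_card, Fintype.card_fin]
    have h2 := card_union_le R bad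
    obtain ⟨l, p, h3, h4, h5, h6, h7, h8⟩ := exists_cycle H (R ∪ bad)ᶜ (k / 16 + 1) (by omega)
      (by omega) fun A B _ hB hAB hA' hB' => by
        obtain ⟨v, hv, i, hi⟩ := hf A B hA' hB'
        refine ⟨v, hv, _, hi, (SimpleGraph.fromRel_adj _ _ _).2 ⟨fun h => ?_, Or.inl ⟨?_, i, rfl⟩⟩⟩
        · exact disjoint_left.1 hAB hv (h ▸ hi)
        · exact fun h => mem_compl.1 (hB hi) (mem_union_right _ h)
    exact ⟨l, p, by omega, by omega,
      fun t ht h => mem_compl.1 (h5 t ht) (mem_union_left _ h), h6, h7, h8⟩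

end Pool.Agent.Lib.MP_a20daa_co
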