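import Mathlib

/-! Finite cubic graphs of large girth, given by three involutions, and long paths that avoid
the ends of few edges. -/

set_option autoImplicit false

namespace Pool.Agent.Lib.MP_a20daa_co.Girth

open Finset

/-- Multiplication by a generator on words of length at most `r`. -/
def flip (r : ℕ) (i : Fin 3) (w : List (Fin 3)) : List (Fin 3) :=
  if w.head? = some i then (if w.tail.head? = some i ∨ r < w.length then w else w.tail)
  else if w.length < r then i :: w else w

lemma flip_flip (r : ℕ) (i : Fin 3) (w : List (Fin 3)) : flip r i (flip r i w) = w := by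
  by_cases h1 : w.head? = some i
  · by_cases h2 : w.tail.head? = some i ∨ r < w.length
    · have : flip r i w = w := by rw [flip, if_pos h1, if_pos h2]
      rw [this, this]
    · have : flip r i w = w.tail := by rw [flip, if_pos h1, if_neg h2]
      rw [this]
      push Not at h2
      obtain ⟨u, rfl⟩ : ∃ u, w = i :: u := by
        cases w with
        | nil => simp at h1
        | cons a u => exact ⟨u, by simp at h1; rw [h1]⟩
      have h3 : u.length < r := by simpa using Nat.lt_of_succ_le h2.2
      rw [List.tail_cons] at h2 ⊢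
      rw [flip, if_neg h2.1, if_pos h3]
  · by_cases h2 : w.length < r
    · have : flip r i w = i :: w := by rw [flip, if_neg h1, if_pos h2]
      rw [this, flip, if_pos (by simp), if_neg (by simp [h1]; omega), List.tail_cons]
    · have : flip r i w = w := by rw [flip, if_neg h1, if_neg h2]
      rw [this, this]

lemma flip_length {r : ℕ} (i : Fin 3) {w : List (Fin 3)} (h : w.length ≤ r) :
    (flip r i w).length ≤ r := by
  unfold flip
  split_ifs
  · exact h
  · simp; omega
  · simp; omega
  · exact h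

/-- The generators as permutations of the ball of radius `r`. -/
def gen (r : ℕ) (i : Fin 3) : Equiv.Perm {w : List (Fin 3) // w.length ≤ r} :=
  Function.Involutive.toPerm (fun w => ⟨flip r i w.1, flip_length i w.2⟩)
    fun w => Subtype.ext (flip_flip r i w.1)

lemma gen_prod (r : ℕ) (w : List (Fin 3)) (hw : w.IsChain (· ≠ ·)) (hl : w.length ≤ r) :
    (((w.map (gen r)).prod ⟨[], by simp⟩ : {w : List (Fin 3) // w.length ≤ r}) : List (Fin 3))
      = w := by
  induction w with
  | nil => rfl
  | cons i u ih =>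
    have h1 : u.length < r := by simpa using Nat.lt_of_succ_le hl
    have h2 : u.head? ≠ some i := by
      cases u with
      | nil => simp
      | cons j u => simpa [eq_comm] using (List.isChain_cons_cons.1 hw).1
    rw [List.map_cons, List.prod_cons, Equiv.Perm.mul_apply]
    change flip r i _ = _
    rw [ih hw.tail h1.le, flip, if_neg h2, if_pos h1]

/-- Three involutions of a finite set that act transitively and satisfy no short relation. -/
theorem exists_sys (r : ℕ) : ∃ (V : Type) (_ : Fintype V) (v₀ : V) (s : Fin 3 → V → V),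
    (∀ i v, s i (s i v) = v) ∧
    (∀ w : List (Fin 3), w.IsChain (· ≠ ·) → w ≠ [] → w.length ≤ r → ∀ v, w.foldr s v ≠ v) ∧
    ∀ P : V → Prop, P v₀ → (∀ i v, P v → P (s i v)) → ∀ v, P v := by
  classical
  have : Finite {w : List (Fin 3) // w.length ≤ r} := List.finite_length_le (Fin 3) r
  let Γ := Subgroup.closure (Set.range (gen r))
  have hm : ∀ i, gen r i ∈ Γ := fun i => Subgroup.subset_closure ⟨i, rfl⟩
  have hsq : ∀ i, gen r i * gen r i = 1 := fun i => Equiv.ext fun w => Subtype.ext (flip_flip r i w.1)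
  refine ⟨Γ, Fintype.ofFinite _, 1, fun i g => ⟨gen r i, hm i⟩ * g, fun i g => ?_,
    fun w h1 h2 h3 g h => ?_, fun P h1 h2 g => ?_⟩
  · refine Subtype.ext ?_
    simp only [Subgroup.coe_mul]
    rw [← mul_assoc, hsq, one_mul]
  · have h4 : ∀ u : List (Fin 3), (u.foldr (fun i g => (⟨gen r i, hm i⟩ : Γ) * g) g : Γ).1
        = (u.map (gen r)).prod * g.1 := by
      intro u
      induction u with
      | nil => simp
      | cons i u ih => simp [ih, mul_assoc]
    have h5 := h4 w
    rw [h] at h5
    have h6 : (w.map (gen r)).prod = 1 := by simpa using h5.symm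
    have h7 := gen_prod r w h1 h3
    rw [h6] at h7
    exact h2 h7.symm
  · obtain ⟨g, hg⟩ := g
    induction hg using Subgroup.closure_induction_left with
    | one => exact h1
    | mul_left x hx y hy ih =>
      obtain ⟨i, rfl⟩ := hx
      exact h2 i _ ih
    | inv_mul_cancel x hx y hy ih =>
      obtain ⟨i, rfl⟩ := hx
      have h3 : (gen r i)⁻¹ = gen r i := inv_eq_of_mul_eq_one_right (hsq i)
      have := h2 i _ ih
      convert this using 2
      simp [h3]

variable {V : Type} [DecidableEq V] {s : Fin 3 → V → V}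

/-- Twice the number of edges inside `R`. -/
def darts (s : Fin 3 → V → V) (R : Finset V) : ℕ := ∑ i, (R.filter fun u => s i u ∈ R).card

lemma darts_erase (hs : ∀ i v, s i (s i v) = v) (R : Finset V) (v : V) :
    darts s R ≤ darts s (R.erase v) + 2 * (univ.filter fun i => s i v ∈ R).card := by
  rw [card_filter, mul_sum, darts, darts, ← sum_add_distrib]
  refine sum_le_sum fun i _ => ?_
  have h : (R.filter fun u => s i u ∈ R) ⊆ ((R.erase v).filter fun u => s i u ∈ R.erase v) ∪
      (if s i v ∈ R then {v, s i v} else ∅) := by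
    intro u hu
    obtain ⟨h1, h2⟩ := mem_filter.1 hu
    by_cases h3 : u = v
    · subst h3
      simp [h2]
    · by_cases h4 : s i u = v
      · have h5 : s i v = u := by rw [← h4, hs]
        simp [h5, h1]
      · simp [h1, h2, h3, h4]
  refine (card_le_card h).trans ((card_union_le _ _).trans (Nat.add_le_add_left ?_ _))
  split_ifs
  · exact card_le_two
  · simp

lemma exists_core (hs : ∀ i v, s i (s i v) = v) (hne : ∀ i v, s i v ≠ v) (R : Finset V)
    (h0 : R.Nonempty) (h : 2 * R.card ≤ darts s R) :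
    ∃ T ⊆ R, T.Nonempty ∧ ∀ v ∈ T, ∀ i, ∃ j, j ≠ i ∧ s j v ∈ T := by
  induction R using Finset.strongInduction with
  | H R ih =>
    by_contra hc
    push Not at hc
    obtain ⟨v, hv, i, hi⟩ := hc R Subset.rfl h0
    have h1 : (univ.filter fun j => s j v ∈ R).card ≤ 1 :=
      (card_le_card (t := {i}) fun j hj => by
        by_contra hn
        exact hi j (by simpa using hn) (mem_filter.1 hj).2).trans (by simp)
    have h2 := darts_erase hs R v
    have h3 := card_erase_add_one hv
    rcases (R.erase v).eq_empty_or_nonempty with h4 | h4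
    · have h5 : (univ.filter fun j => s j v ∈ R) = ∅ := filter_eq_empty_iff.2 fun j _ hj => by
        have : s j v ∈ R.erase v := mem_erase.2 ⟨hne j v, hj⟩
        simp [h4] at this
      rw [h4] at h2 h3
      rw [h5, show darts s ∅ = 0 by simp [darts], card_empty] at h2
      omega
    · obtain ⟨T, h5, h6, h7⟩ := ih _ (erase_ssubset hv) h4 (by omega)
      obtain ⟨u, hu, j, hj⟩ := hc T (h5.trans (erase_subset _ _)) h6
      obtain ⟨l, h8, h9⟩ := h7 u hu j
      exact hj l h8 h9

lemma exists_rest [Fintype V] (hs : ∀ i v, s i (s i v) = v) {Y : Type} [DecidableEq Y]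
    (e : Y → V × Fin 3) (D : Finset Y) : ∃ R : Finset V,
      (∀ y ∈ D, (e y).1 ∉ R ∧ s (e y).2 (e y).1 ∉ R) ∧ Fintype.card V ≤ R.card + 2 * D.card ∧
      Fintype.card V + 2 * R.card ≤ darts s R + 6 * D.card := by
  have step : ∀ (R : Finset V) (v : V) (c : ℕ), (univ.filter fun i => s i v ∈ R).card ≤ c + 1 →
      R.card ≤ (R.erase v).card + 1 ∧
      darts s R + 2 * (R.erase v).card ≤ darts s (R.erase v) + 2 * R.card + 2 * c := by
    intro R v c hc
    by_cases hv : v ∈ R
    · have h1 := darts_erase hs R v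
      have h2 := card_erase_add_one hv
      omega
    · rw [erase_eq_of_notMem hv]
      omega
  induction D using Finset.induction_on with
  | empty => exact ⟨univ, by simp, by simp, by simp [darts]; omega⟩
  | insert y D hy ih =>
    obtain ⟨R, h1, h2, h3⟩ := ih
    have h4 := step R (e y).1 2 ((card_le_univ _).trans (by simp))
    have h5 := step (R.erase (e y).1) (s (e y).2 (e y).1) 1
      ((card_le_card (t := univ.erase (e y).2) fun j hj => mem_erase.2 ⟨by
        rintro rfl
        simp [hs] at hj, mem_univ _⟩).trans (by simp))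
    refine ⟨(R.erase (e y).1).erase (s (e y).2 (e y).1), fun x hx => ?_, ?_, ?_⟩
    · rcases mem_insert.1 hx with rfl | hx
      · simp
      · simp [h1 x hx]
    · rw [card_insert_of_notMem hy]; omega
    · rw [card_insert_of_notMem hy]; omega

omit [DecidableEq V] in
/-- A walk without backtracking inside a set of minimum degree two. -/
lemma exists_walk {T : Finset V} (h0 : T.Nonempty) (h : ∀ v ∈ T, ∀ i, ∃ j, j ≠ i ∧ s j v ∈ T) :
    ∃ (v : ℕ → V) (c : ℕ → Fin 3), ∀ t, v t ∈ T ∧ v (t + 1) = s (c t) (v t) ∧ c (t + 1) ≠ c t := by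
  choose! nx h1 h2 using h
  obtain ⟨u, hu⟩ := h0
  let f : V × Fin 3 → V × Fin 3 := fun p => (s p.2 p.1, nx (s p.2 p.1) p.2)
  have h3 : ∀ t, (f^[t] (u, nx u 0)).1 ∈ T ∧ s (f^[t] (u, nx u 0)).2 (f^[t] (u, nx u 0)).1 ∈ T := by
    intro t
    induction t with
    | zero => exact ⟨hu, h2 u hu 0⟩
    | succ t ih =>
      rw [Function.iterate_succ_apply']
      exact ⟨ih.2, h2 _ ih.2 _⟩
  refine ⟨fun t => (f^[t] (u, nx u 0)).1, fun t => (f^[t] (u, nx u 0)).2, fun t =>
    ⟨(h3 t).1, ?_, ?_⟩⟩
  · simp only [Function.iterate_succ_apply']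
    rfl
  · simp only [Function.iterate_succ_apply']
    exact h1 _ (h3 t).2 _

omit [DecidableEq V] in
lemma walk_inj {r : ℕ}
    (hw : ∀ w : List (Fin 3), w.IsChain (· ≠ ·) → w ≠ [] → w.length ≤ r → ∀ v, w.foldr s v ≠ v)
    {v : ℕ → V} {c : ℕ → Fin 3} (h1 : ∀ t, v (t + 1) = s (c t) (v t)) (h2 : ∀ t, c (t + 1) ≠ c t)
    {a b : ℕ} (hab : a < b) (hb : b ≤ r) : v a ≠ v b := by
  have key : ∀ l, ∃ w : List (Fin 3), (c (a + l) :: w).IsChain (· ≠ ·) ∧ w.length = l ∧
      w.foldr s (v a) = v (a + l) := by
    intro l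
    induction l with
    | zero => exact ⟨[], by simp, rfl, rfl⟩
    | succ l ih =>
      obtain ⟨w, h3, h4, h5⟩ := ih
      exact ⟨c (a + l) :: w, List.isChain_cons_cons.2 ⟨h2 _, h3⟩, by simp [h4],
        by rw [List.foldr_cons, h5, ← h1]; rfl⟩
  obtain ⟨w, h3, h4, h5⟩ := key (b - a)
  rw [show a + (b - a) = b by omega] at h5
  intro h
  exact hw w h3.tail (by rintro rfl; simp at h4; omega) (by omega) _ (h5.trans h.symm)

/-- Fewer than `|V| / 6` edges leave a path with `r` edges that avoids all their ends. -/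
theorem exists_path [Fintype V] {r : ℕ} (hr : 1 ≤ r) (hs : ∀ i v, s i (s i v) = v)
    (hw : ∀ w : List (Fin 3), w.IsChain (· ≠ ·) → w ≠ [] → w.length ≤ r → ∀ v, w.foldr s v ≠ v)
    {Y : Type} [DecidableEq Y] (e : Y → V × Fin 3) (D : Finset Y)
    (hD : 6 * D.card < Fintype.card V) : ∃ (v : ℕ → V) (c : ℕ → Fin 3),
      (∀ t, v (t + 1) = s (c t) (v t)) ∧ (∀ a b, a < b → b ≤ r → v a ≠ v b) ∧
      ∀ t, ∀ y ∈ D, v t ≠ (e y).1 ∧ v t ≠ s (e y).2 (e y).1 := by
  obtain ⟨R, h1, h2, h3⟩ := exists_rest hs e D
  obtain ⟨T, h4, h5, h6⟩ := exists_core hs (fun i v => hw [i] (by simp) (by simp) hr v) R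
    (card_pos.1 (by omega)) (by omega)
  obtain ⟨v, c, h7⟩ := exists_walk h5 h6
  exact ⟨v, c, fun t => (h7 t).2.1,
    fun a b => walk_inj hw (fun t => (h7 t).2.1) fun t => (h7 t).2.2,
    fun t y hy => ⟨fun h => (h1 y hy).1 (h ▸ h4 (h7 t).1), fun h => (h1 y hy).2 (h ▸ h4 (h7 t).1)⟩⟩

end Pool.Agent.Lib.MP_a20daa_co.Girth
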